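import Pool.Agent.W614.Dg.Word

/-!
Simulation by a dgsm with two states, with control of the growth by the lengths of the queue.
-/

set_option autoImplicit false

namespace Pool.Agent.TH754.DG

open Pool.Agent.H584R2.Dg Pool.Agent.W614.Dg

/-- Simulation by a dgsm with two states; the growth is controlled by the lengths of the queue. -/
theorem step2 {S : Type} [Finite S] (τ : Dgsm S) (hne : τ.NonErasing) (a : S) (w : ℕ → S)
    (hw : τ.IsLimit a w) :
    ∃ (S' : Type) (_ : Finite S') (τ' : Dgsm S') (a' : S') (w' : ℕ → S') (h : S' → Option S)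
      (P : ℕ → ℕ) (B : ℕ), Nat.card τ'.Q = 2 ∧ τ'.NonErasing ∧ τ'.IsLimit a' w' ∧
      (∀ n, (τ'.map^[n] [a']).length ≤ 1 + ∑ i ∈ Finset.range n, (len τ a i + 1)) ∧
      Dec h w' w P ∧ ∀ k, P k + 1 ≤ B * (k + 1) ^ 3 := by
  have := τ.finQ
  have : Nonempty τ.Q := ⟨τ.init⟩
  have : Nonempty S := ⟨a⟩
  obtain ⟨C⟩ := exists_cod τ.Q S
  obtain ⟨K, hK⟩ := exists_bound τ
  obtain ⟨u, hout, hu, h0, ht⟩ := trace_of_isLimit hne hw
  -- the queue of `τ`
  obtain ⟨c, hc⟩ : ∃ c : ℕ → τ.Q × List S, c = qconf τ (τ.next τ.init a, u) := ⟨_, rfl⟩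
  have hlen : ∀ k, len τ a k = (c k).2.length := by
    intro k
    rw [hc]
    unfold len
    rw [hout]
    rfl
  obtain ⟨ys, hys⟩ : ∃ ys : ℕ → List S, ys = fun k => (c k).2.tail := ⟨_, rfl⟩
  have hcons : ∀ k, (c k).2 = w (k + 1) :: ys k := by
    intro k
    have := ht k
    rw [← hc] at this
    rw [hys]
    simp only
    rcases h : (c k).2 with _ | ⟨x, v⟩
    · rw [h] at this; simp at this
    · rw [h] at this
      simp only [List.head?_cons, Option.some.injEq] at this
      rw [this]
      rfl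
  have hlen2 : ∀ k, len τ a k = (ys k).length + 1 := by
    intro k
    rw [hlen, hcons]
    rfl
  have hstep : ∀ k, (c (k + 1)).1 = τ.next (c k).1 (w (k + 1)) ∧
      ys k ++ τ.out (c k).1 (w (k + 1)) = w (k + 1 + 1) :: ys (k + 1) := by
    intro k
    have h1 : c (k + 1) = qstep τ (c k) := by rw [hc, qconf_succ]
    have h2 : c k = ((c k).1, w (k + 1) :: ys k) := by rw [← hcons]
    have h3 : c (k + 1) = (τ.next (c k).1 (w (k + 1)), ys k ++ τ.out (c k).1 (w (k + 1))) := by
      rw [h1]
      conv_lhs => rw [h2]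
      rfl
    refine ⟨by rw [h3], ?_⟩
    rw [← hcons (k + 1), h3]
  -- the blocks
  obtain ⟨blk, hblk⟩ : ∃ blk : ℕ → List (L2 τ.Q S C.m),
      blk = fun k => .act (c k).1 (w (k + 1)) :: (pl (ys k) ++ [.E]) := ⟨_, rfl⟩
  have hmac : ∀ k, ∃ W, Rd (sim τ C (blk 0)) (false, blk k)
      (.act (c k).1 (w (k + 1)) :: W) (false, blk (k + 1)) ∧ (∀ x ∈ W, Passive x) ∧
      ((ys k).length + 1) ^ 2 ≤ W.length ∧
      W.length ≤ (C.m + 8) * ((ys (k + 1)).length + 2) ^ 2 := by
    intro k
    obtain ⟨h1, h2⟩ := hstep k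
    have := macroStep (τ := τ) (C := C) (b0 := blk 0) (c k).1 (w (k + 1)) (w (k + 1 + 1)) (ys k)
      (ys (k + 1)) h2 (hne _ _)
    rw [← h1] at this
    simp only [hblk] at this ⊢
    exact this
  choose W hW1 hW2 hW3 hW4 using hmac
  obtain ⟨R, hR⟩ : ∃ R : ℕ → ℕ, R = fun k => ∑ j ∈ Finset.range k, ((W j).length + 1) := ⟨_, rfl⟩
  have hR0 : R 0 = 0 := by rw [hR]; simp
  have hRs : ∀ k, R (k + 1) = R k + ((W k).length + 1) := by
    intro k
    rw [hR]
    simp only [Finset.sum_range_succ]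
  have hconf : ∀ k, qconf (sim τ C (blk 0)) (false, blk 0) (R k) = (false, blk k) := by
    intro k
    induction k with
    | zero => rw [hR0]; rfl
    | succ k ih =>
      rw [hRs, qconf_add, ih]
      exact (hW1 k).1
  have hne2 := sim_nonErasing hne C (blk 0)
  have hb0 : blk 0 ≠ [] := by simp [hblk]
  -- the word
  obtain ⟨w', hw'⟩ : ∃ w' : ℕ → L2 τ.Q S C.m, w' = fun r => match r with
    | 0 => .start
    | r + 1 => ((qconf (sim τ C (blk 0)) (false, blk 0) r).2.head?).getD .start := ⟨_, rfl⟩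
  have htr : IsTrace (sim τ C (blk 0)) (false, blk 0) (fun r => w' (r + 1)) := by
    intro r
    have h1 := qconf_mono hne2 (false, blk 0) (Nat.zero_le r)
    rw [qconf_zero] at h1
    have h2 := List.length_pos_of_ne_nil hb0
    simp only [hw']
    rcases h : (qconf (sim τ C (blk 0)) (false, blk 0) r).2 with _ | ⟨x, v⟩
    · rw [h] at h1
      simp only [List.length_nil] at h1
      omega
    · simp
  have hlim := isLimit_of_trace (τ := sim τ C (blk 0)) hne2 (a := .start) (u := blk 0) rfl hb0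
    (w := w') (by rw [hw']) htr
  have hhead : ∀ k i (hi : i < (W k).length + 1),
      w' (R k + i + 1) = (L2.act (c k).1 (w (k + 1)) :: W k)[i]'(by simpa using hi) := by
    intro k i hi
    have h1 := htr (R k + i)
    have h2 := (hW1 k).2 i (by simpa using hi)
    rw [qconf_add, hconf] at h1
    exact (Option.some.inj (h2.symm.trans h1)).symm
  -- lengths
  have hK' : ∀ k, len τ a (k + 1) ≤ len τ a k + K := by
    intro k
    rw [hlen, hlen, hc]
    exact len_succ_le hK _ _
  have hl2 : ∀ r, len (sim τ C (blk 0)) .start r =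
      (qconf (sim τ C (blk 0)) (false, blk 0) r).2.length := fun r => rfl
  have hblen : ∀ k, (blk k).length = len τ a k + 1 := by
    intro k
    rw [hlen2]
    simp [hblk]
  have hgr : ∀ n, ((sim τ C (blk 0)).map^[n] [.start]).length ≤ R n + 1 ∧
      ((sim τ C (blk 0)).map^[n] [.start]).length ≤
        1 + ∑ i ∈ Finset.range n, (len τ a i + 1) := by
    intro n
    induction n with
    | zero => simp
    | succ n ih =>
      obtain ⟨ih1, ih2⟩ := ih
      rw [hlim.2.2 n, Finset.sum_range_succ, hRs]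
      have h1 := qconf_mono hne2 (false, blk 0)
        (r := ((sim τ C (blk 0)).map^[n] [.start]).length - 1) (s := R n) (by omega)
      rw [hconf] at h1
      have h2 : ((false, blk n) : Bool × List (L2 τ.Q S C.m)).2.length = len τ a n + 1 := hblen n
      have h3 := hW3 n
      have h4 := hlen2 n
      have h5 : (ys n).length + 1 ≤ ((ys n).length + 1) ^ 2 := Nat.le_self_pow (by omega) _
      have h6 : (qconf (sim τ C (blk 0)) (false, blk 0)
          (((sim τ C (blk 0)).map^[n] [.start]).length - 1)).2.length ≤ len τ a n + 1 :=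
        h1.trans h2.le
      refine ⟨?_, ?_⟩
      · refine le_trans (Nat.add_le_add_left h6 _) ?_
        omega
      · refine le_trans (Nat.add_le_add_left h6 _) ?_
        omega
  -- polynomial bound of `R`
  have hlb : ∀ k, len τ a k ≤ (len τ a 0 + K) * (k + 1) := by
    intro k
    induction k with
    | zero => simp
    | succ k ih =>
      have := hK' k
      have e1 : (len τ a 0 + K) * (k + 1 + 1) = (len τ a 0 + K) * (k + 1) + (len τ a 0 + K) := by
        ring
      omega
  obtain ⟨B1, hB1⟩ : ∃ B1 : ℕ, B1 = (C.m + 8) * (2 * (len τ a 0 + K + 1)) ^ 2 + 1 := ⟨_, rfl⟩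
  have hRb : ∀ k, R k ≤ B1 * k ^ 3 := by
    intro k
    induction k with
    | zero => simp [hR0]
    | succ k ih =>
      rw [hRs]
      have h1 := hW4 k
      have h2 := hlen2 (k + 1)
      have h3 := hlb (k + 1)
      have h4 : (ys (k + 1)).length + 2 ≤ 2 * (len τ a 0 + K + 1) * (k + 1) := by
        nlinarith
      have h5 : ((ys (k + 1)).length + 2) ^ 2 ≤ (2 * (len τ a 0 + K + 1)) ^ 2 * (k + 1) ^ 2 := by
        rw [← mul_pow]
        exact Nat.pow_le_pow_left h4 2
      have h6 : (W k).length ≤ (C.m + 8) * ((2 * (len τ a 0 + K + 1)) ^ 2 * (k + 1) ^ 2) :=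
        h1.trans (Nat.mul_le_mul_left _ h5)
      have h7 : (W k).length + 1 ≤ B1 * (k + 1) ^ 2 := by
        rw [hB1, add_mul]
        have h8 : 1 ≤ (k + 1) ^ 2 := Nat.one_le_pow _ _ (by omega)
        calc (W k).length + 1 ≤ (C.m + 8) * ((2 * (len τ a 0 + K + 1)) ^ 2 * (k + 1) ^ 2) + 1 := by
              omega
          _ ≤ _ := by
              rw [mul_assoc]
              omega
      calc R k + ((W k).length + 1) ≤ B1 * k ^ 3 + B1 * (k + 1) ^ 2 := Nat.add_le_add ih h7
        _ = B1 * (k ^ 3 + (k + 1) ^ 2) := by ring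
        _ ≤ B1 * (k + 1) ^ 3 := Nat.mul_le_mul_left _ (by nlinarith)
  -- positions
  obtain ⟨P, hP⟩ : ∃ P : ℕ → ℕ, P = fun k => match k with
    | 0 => 0
    | k + 1 => R k + 1 := ⟨_, rfl⟩
  have hP0 : P 0 = 0 := by rw [hP]
  have hPs : ∀ k, P (k + 1) = R k + 1 := by intro k; rw [hP]
  refine ⟨L2 τ.Q S C.m, inferInstance, sim τ C (blk 0), .start, w', dcd a, P, B1 + 2, ?_, hne2,
    hlim.1, fun n => (hgr n).2, ⟨?_, hP0, ?_, ?_⟩, ?_⟩
  · show Nat.card Bool = 2
    simp
  · apply strictMono_nat_of_lt_succ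
    intro k
    cases k with
    | zero => rw [hP0, hPs]; omega
    | succ k => rw [hPs, hPs, hRs]; omega
  · intro k
    cases k with
    | zero =>
      rw [hP0, hw', h0]
      rfl
    | succ k =>
      rw [hPs]
      have := hhead k 0 (by omega)
      rw [add_zero] at this
      rw [this]
      rfl
  · intro k r h1 h2
    cases k with
    | zero =>
      rw [hP0] at h1
      rw [hPs, hR0] at h2
      omega
    | succ k =>
      rw [hPs] at h1
      rw [hPs, hRs] at h2
      obtain ⟨i, hi⟩ : ∃ i, r = R k + (i + 1) + 1 := ⟨r - R k - 2, by omega⟩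
      have h3 := hhead k (i + 1) (by omega)
      rw [hi, h3]
      apply dcd_passive
      apply hW2 k
      simp
  · intro k
    cases k with
    | zero => rw [hP0]; simp
    | succ k =>
      rw [hPs]
      have h1 := hRb k
      have h2 : k ^ 3 ≤ (k + 1 + 1) ^ 3 := Nat.pow_le_pow_left (by omega) 3
      have h3 : 1 ≤ (k + 1 + 1) ^ 3 := Nat.one_le_pow _ _ (by omega)
      have h4 := Nat.mul_le_mul_left B1 h2
      rw [add_mul]
      omega


end Pool.Agent.TH754.DG
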