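import Pool.Agent.TH754.DG.Word
import Pool.Agent.TH754.DG.Two
import Pool.Agent.Results.MP_5d512e_lc.SqrtSpace

/-!
Growth of iterated dgsm's and the space of words generated in polynomial time.
-/

set_option autoImplicit false

namespace Pool.Agent.TH754.DG

open Pool.Agent.H584R2.Dg Pool.Agent.W614.Dg

/-! ## From dgsm's to machines -/

section A

variable {S : Type} {τ : Dgsm S} (hne : τ.NonErasing) {a : S} {w : ℕ → S} (hw : τ.IsLimit a w)

include hne hw

theorem L_succ (n : ℕ) : (τ.map^[n + 1] [a]).length = (τ.map^[n] [a]).length +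
    len τ a ((τ.map^[n] [a]).length - 1) := by
  obtain ⟨u, hout, hu, h0, ht⟩ := trace_of_isLimit hne hw
  have := (isLimit_of_trace hne hout hu h0 ht).2.2 n
  rw [this]
  unfold len
  rw [hout]
  rfl

theorem len_mono' {r r' : ℕ} (h : r ≤ r') : len τ a r ≤ len τ a r' := qconf_mono hne _ h

theorem len_pos (r : ℕ) : 1 ≤ len τ a r := by
  obtain ⟨u, hout, hu, h0, ht⟩ := trace_of_isLimit hne hw
  refine le_trans ?_ (len_mono' hne hw (Nat.zero_le r))
  unfold len
  rw [hout, qconf_zero]
  exact List.length_pos_of_ne_nil hu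

theorem L_ge (n : ℕ) : n + 1 ≤ (τ.map^[n] [a]).length := by
  induction n with
  | zero => simp
  | succ n ih =>
    have := len_pos hne hw ((τ.map^[n] [a]).length - 1)
    rw [L_succ hne hw]
    omega

theorem L_mono {m n : ℕ} (h : m ≤ n) : (τ.map^[m] [a]).length ≤ (τ.map^[n] [a]).length := by
  induction n, h using Nat.le_induction with
  | base => exact le_rfl
  | succ n _ ih => rw [L_succ hne hw]; omega

theorem L_add (l j : ℕ) : (τ.map^[l] [a]).length + j * len τ a ((τ.map^[l] [a]).length - 1) ≤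
    (τ.map^[l + j] [a]).length := by
  induction j with
  | zero => simp
  | succ j ih =>
    have h1 : len τ a ((τ.map^[l] [a]).length - 1) ≤ len τ a ((τ.map^[l + j] [a]).length - 1) := by
      apply len_mono' hne hw
      have := L_mono hne hw (Nat.le_add_right l j)
      omega
    rw [← add_assoc, L_succ hne hw, add_mul, one_mul]
    omega

/-- The machine of a dgsm. -/
theorem toMachine [Finite S] : ∃ (M : Machine 3 S) (K : ℝ), 0 ≤ K ∧ M.Generates w ∧
    (∀ n : ℕ, 1 ≤ n → (M.T n : ℝ) ≤ K * (n : ℝ) ^ 2) ∧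
    ∀ σ : ℕ → ℝ, (∀ n : ℕ, 1 ≤ n → ((τ.map^[n] [a]).length : ℝ) ≤ n * σ n) →
      ∀ n : ℕ, 1 ≤ n → ∀ X : ℝ, (∀ m : ℕ, 1 ≤ m → m ≤ 2 * n → σ m ≤ X) →
        M.SpaceLE n (2 * K * X) := by
  obtain ⟨M, K, h1, h2, -, h4, -⟩ := Pool.Agent.Results.MP_5d512e_lc.SqrtSpace.result τ hne a w hw
  refine ⟨M, |K|, abs_nonneg K, h1, ?_, ?_⟩
  · intro n hn
    have hn' : (1 : ℝ) ≤ n := by exact_mod_cast hn
    have h5 : √(n : ℝ) ≤ n := by
      rw [Real.sqrt_le_left (by linarith)]
      nlinarith
    calc (M.T n : ℝ) ≤ K * (n * √n) := (h2 n hn).1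
      _ ≤ |K| * (n * √n) := by
        apply mul_le_mul_of_nonneg_right (le_abs_self K) (by positivity)
      _ ≤ |K| * (n : ℝ) ^ 2 := by
        apply mul_le_mul_of_nonneg_left _ (abs_nonneg K)
        rw [sq]
        exact mul_le_mul_of_nonneg_left h5 (by linarith)
  · intro σ hσ n hn X hX
    have hex : ∃ l, n ≤ (τ.map^[l + 1] [a]).length := ⟨n, by
      have := L_ge hne hw (n + 1)
      omega⟩
    classical
    obtain ⟨l, hl⟩ : ∃ l, l = Nat.find hex := ⟨_, rfl⟩
    have h5 : n ≤ (τ.map^[l + 1] [a]).length := by rw [hl]; exact Nat.find_spec hex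
    have h6 : 2 * l + 1 ≤ 2 * n := by
      rcases Nat.eq_zero_or_pos l with h7 | h7
      · omega
      · have h8 : ¬ n ≤ (τ.map^[(l - 1) + 1] [a]).length := by
          apply Nat.find_min hex
          omega
        rw [Nat.sub_add_cancel h7] at h8
        have := L_ge hne hw l
        omega
    obtain ⟨D, hD⟩ : ∃ D : ℕ, D = len τ a ((τ.map^[l] [a]).length - 1) := ⟨_, rfl⟩
    have h7 : ((τ.map^[l + 1] [a]).length : ℝ) - (τ.map^[l] [a]).length = D := by
      rw [L_succ hne hw l, ← hD]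
      push_cast
      ring
    have h8 : (l + 1) * D ≤ (τ.map^[2 * l + 1] [a]).length := by
      have h9 := L_add hne hw l (l + 1)
      have e : l + (l + 1) = 2 * l + 1 := by ring
      rw [e, ← hD] at h9
      omega
    have h9 : ((l : ℝ) + 1) * D ≤ (2 * l + 1) * X := by
      calc ((l : ℝ) + 1) * D ≤ ((τ.map^[2 * l + 1] [a]).length : ℝ) := by exact_mod_cast h8
        _ ≤ ((2 * l + 1 : ℕ) : ℝ) * σ (2 * l + 1) := hσ _ (by omega)
        _ ≤ ((2 * l + 1 : ℕ) : ℝ) * X :=
            mul_le_mul_of_nonneg_left (hX _ (by omega) h6) (Nat.cast_nonneg _)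
        _ = _ := by push_cast; ring
    have hl0 : (0 : ℝ) ≤ l := Nat.cast_nonneg l
    have hD0 : (0 : ℝ) ≤ D := Nat.cast_nonneg D
    have hX0 : 0 ≤ X := by
      by_contra hc
      push Not at hc
      have : (0 : ℝ) ≤ ((l : ℝ) + 1) * D := by positivity
      nlinarith
    have h10 : (D : ℝ) ≤ 2 * X := by
      by_contra hc
      push Not at hc
      nlinarith
    have h11 := (h4 n l hn h5).2
    rw [h7] at h11
    refine spaceLE_mono ?_ h11
    calc K * D ≤ |K| * D := mul_le_mul_of_nonneg_right (le_abs_self K) hD0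
      _ ≤ |K| * (2 * X) := mul_le_mul_of_nonneg_left h10 (abs_nonneg K)
      _ = _ := by ring

end A

/-! ## Erasing letters -/

/-- `w` is obtained from `w'` by applying the partial letter map `h`; its first `n` letters are
obtained from the first `B * n ^ e` letters. -/
def Er {S S' : Type} (h : S' → Option S) (w' : ℕ → S') (w : ℕ → S) (B e : ℕ) : Prop :=
  (∀ n, IsPre (((List.range n).map w').filterMap h) w) ∧
    ∀ n, 1 ≤ n → n ≤ (((List.range (B * n ^ e)).map w').filterMap h).length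

theorem inSpace_er {S S' : Type} {h : S' → Option S} {w' : ℕ → S'} {w : ℕ → S} {B e : ℕ}
    (hE : Er h w' w B e) {s : ℕ → ℝ} (hs0 : ∀ n, 0 ≤ s n)
    (hs : ∀ B d : ℕ, ∃ C : ℝ, ∀ n m : ℕ, 1 ≤ n → m ≤ B * n ^ d → s m ≤ C * s n)
    (hw : InSpace s w') : InSpace s w := by
  obtain ⟨k, M, C, hM, hC⟩ := hw
  obtain ⟨h1, h2⟩ := hE
  obtain ⟨C', hC'⟩ := hs B e
  have hout : ∀ t, ((er h M).conf t).out = (pre w' (M.conf t).out.length).filterMap h := by
    intro t
    rw [(er_conf h M t).2.2]
    conv_lhs => rw [isPre_iff.1 (hM.1 t)]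
  have hlen : ∀ n t, 1 ≤ n → B * n ^ e ≤ (M.conf t).out.length →
      n ≤ ((er h M).conf t).out.length := by
    intro n t hn ht
    rw [hout]
    refine (h2 n hn).trans (List.IsPrefix.length_le ?_)
    apply List.IsPrefix.filterMap
    exact pre_prefix _ ht
  refine ⟨k, er h M, |C| * C', ⟨?_, ?_⟩, ?_⟩
  · intro t
    rw [hout]
    exact h1 _
  · intro n
    rcases Nat.eq_zero_or_pos n with rfl | hn
    · exact ⟨0, Nat.zero_le _⟩
    · obtain ⟨t, ht⟩ := hM.2 (B * n ^ e)
      exact ⟨t, hlen n t hn ht⟩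
  · intro n hn t ht i
    have hpos : 1 ≤ B * n ^ e := by
      by_contra hc
      have h3 : B * n ^ e = 0 := by omega
      have h4 := h2 n hn
      rw [h3] at h4
      simp only [List.range_zero, List.map_nil, List.filterMap_nil, List.length_nil] at h4
      omega
    have h3 : (er h M).T n ≤ M.T (B * n ^ e) := T_le (hlen n _ hn (T_spec hM _))
    have h4 := spaceLE_mono (s' := |C| * C' * s n) (by
      calc C * s (B * n ^ e) ≤ |C| * s (B * n ^ e) :=
            mul_le_mul_of_nonneg_right (le_abs_self C) (hs0 _)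
        _ ≤ |C| * (C' * s n) := mul_le_mul_of_nonneg_left (hC' n _ hn le_rfl) (abs_nonneg C)
        _ = _ := by ring) (hC (B * n ^ e) hpos) t (ht.trans h3) i
    have e1 : (((er h M).conf t).tape) = (M.conf t).tape := (er_conf h M t).2.1
    rw [e1]
    exact h4

/-! ## From machines to dgsm's -/

theorem conf_out_le {k : ℕ} {S : Type} (M : Machine k S) (t : ℕ) : (M.conf t).out.length ≤ t := by
  induction t with
  | zero => exact le_rfl
  | succ t ih =>
    rw [conf_succ]
    show ((M.conf t).out ++ (tr M (M.conf t)).2.2.toList).length ≤ _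
    rw [List.length_append]
    have : (tr M (M.conf t)).2.2.toList.length ≤ 1 := by
      cases (tr M (M.conf t)).2.2 <;> simp
    omega

theorem le_T {k : ℕ} {S : Type} {M : Machine k S} {w : ℕ → S} (hM : M.Generates w) (n : ℕ) :
    n ≤ M.T n := (T_spec hM n).trans (conf_out_le M _)

/-- The dgsm of a machine. -/
theorem toDgsm {k : ℕ} {S : Type} [Finite S] {M : Machine k S} {w : ℕ → S} (hM : M.Generates w)
    {σ : ℕ → ℝ} (hσ0 : ∀ n, 0 ≤ σ n) (hσ : ∀ n : ℕ, 1 ≤ n → M.SpaceLE n (σ n)) {C : ℝ} {d : ℕ}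
    (hT : ∀ n : ℕ, 1 ≤ n → (M.T n : ℝ) ≤ C * (n : ℝ) ^ d) :
    ∃ (S' : Type) (_ : Finite S') (τ' : Dgsm S') (a' : S') (w' : ℕ → S') (h : S' → Option S)
      (B e : ℕ), Nat.card τ'.Q = 2 ∧ τ'.NonErasing ∧ τ'.IsLimit a' w' ∧
      (∀ n : ℕ, ((τ'.map^[n] [a']).length : ℝ) ≤ 1 + n * (σ (n + 1) + 2)) ∧
      Er h w' w B e := by
  have := M.finSym
  obtain ⟨S', hS', τ', a', w', h, P, B, hc, hne', hw', hgr, hd, hB⟩ :=
    step2 (simM M) (simM_nonErasing M) .start (wS M) (limit M).1
  obtain ⟨c, hc1⟩ : ∃ c : ℕ, C ≤ c := exists_nat_ge C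
  have hTn : ∀ n : ℕ, 1 ≤ n → M.T n ≤ c * n ^ d := by
    intro n hn
    have h1 := hT n hn
    have h2 : (M.T n : ℝ) ≤ ((c * n ^ d : ℕ) : ℝ) := by
      push_cast
      exact h1.trans (mul_le_mul_of_nonneg_right hc1 (by positivity))
    exact_mod_cast h2
  refine ⟨S', hS', τ', a', w', fun x => (h x).bind dec, B * (c + 3) ^ 6, 6 * d, hc, hne', hw',
    ?_, ?_, ?_⟩
  · intro n
    have h1 : ∀ i, i < n → len (simM M) .start i ≤ wdt M n := by
      intro i hi
      have h2 := queue_le M (t := n) (r := i) (by have := le_Rt M n; omega)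
      exact h2
    have h2 : (τ'.map^[n] [a']).length ≤ 1 + n * (wdt M n + 1) := by
      refine (hgr n).trans ?_
      apply Nat.add_le_add_left
      calc ∑ i ∈ Finset.range n, (len (simM M) .start i + 1)
          ≤ ∑ _i ∈ Finset.range n, (wdt M n + 1) := by
            apply Finset.sum_le_sum
            intro i hi
            have := h1 i (Finset.mem_range.1 hi)
            omega
        _ = n * (wdt M n + 1) := by simp
    have h3 : (wdt M n : ℝ) ≤ σ (n + 1) + 1 := by
      apply wdt_bound M (hσ0 _)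
      intro t' ht' j
      have h4 := le_T hM (n + 1)
      exact (hσ (n + 1) (by omega) t' (by omega) j).1
    calc ((τ'.map^[n] [a']).length : ℝ) ≤ ((1 + n * (wdt M n + 1) : ℕ) : ℝ) := by
          exact_mod_cast h2
      _ = 1 + n * ((wdt M n : ℝ) + 1) := by push_cast; ring
      _ ≤ _ := by
        have : (0 : ℝ) ≤ n := Nat.cast_nonneg n
        nlinarith
  · intro n
    obtain ⟨j, h1, -, -⟩ := hd.filter n
    have h2 : ((List.range n).map w').filterMap (fun x => (h x).bind dec) =
        (pre (wS M) j).filterMap (dec (S := S)) := by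
      rw [← h1, List.filterMap_filterMap]
      rfl
    rw [h2]
    exact filter_isPre M hM j
  · intro n hn
    obtain ⟨N, hN⟩ : ∃ N : ℕ, N = Rt M (M.T n + 1) + 1 := ⟨_, rfl⟩
    obtain ⟨j, h1, -, h3⟩ := hd.filter (P N)
    have hjN : N ≤ j := hd.mono.le_iff_le.1 h3
    have h2 : ((List.range (P N)).map w').filterMap (fun x => (h x).bind dec) =
        (pre (wS M) j).filterMap (dec (S := S)) := by
      rw [← h1, List.filterMap_filterMap]
      rfl
    have h4 : n ≤ (((List.range (P N)).map w').filterMap (fun x => (h x).bind dec)).length := by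
      rw [h2]
      exact filter_length M (by omega) hM
    have h5 : P N ≤ B * (c + 3) ^ 6 * n ^ (6 * d) := by
      have h6 := hB N
      have h7 := Rt_le M (M.T n + 1)
      have h8 := hTn n hn
      have h9 : 1 ≤ n ^ d := Nat.one_le_pow _ _ hn
      have h10 : M.T n + 3 ≤ (c + 3) * n ^ d := by
        have : 3 ≤ 3 * n ^ d := by omega
        rw [add_mul]
        omega
      have h11 : N + 1 ≤ (M.T n + 3) ^ 2 := by
        rw [hN]
        nlinarith
      have h12 : N + 1 ≤ ((c + 3) * n ^ d) ^ 2 := h11.trans (Nat.pow_le_pow_left h10 2)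
      calc P N ≤ B * (N + 1) ^ 3 := by omega
        _ ≤ B * (((c + 3) * n ^ d) ^ 2) ^ 3 :=
            Nat.mul_le_mul_left _ (Nat.pow_le_pow_left h12 3)
        _ = B * (c + 3) ^ 6 * n ^ (6 * d) := by
            rw [← pow_mul, mul_pow, ← pow_mul]
            ring
    refine h4.trans (List.IsPrefix.length_le ?_)
    apply List.IsPrefix.filterMap
    exact pre_prefix w' h5

end Pool.Agent.TH754.DG
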