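import Pool.Agent.TH754.DG.LW
import Pool.Agent.W614.Dg.Trans

/-!
Growth of the dgsm whose state is the last letter read.
-/

set_option autoImplicit false

namespace Pool.Agent.TH754.DG

open Pool.Agent.H584R2.Dg Pool.Agent.W614.Dg

theorem len_le_growth {S : Type} {τ : Dgsm S} (hne : τ.NonErasing) {a : S} {w : ℕ → S}
    (hw : τ.IsLimit a w) {σ : ℕ → ℝ}
    (hσ : ∀ n : ℕ, 1 ≤ n → ((τ.map^[n] [a]).length : ℝ) ≤ n * σ n) {n : ℕ} {X : ℝ}
    (hX : ∀ m : ℕ, 1 ≤ m → m ≤ 2 * n + 1 → σ m ≤ X) {i : ℕ} (hi : i < n) :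
    (len τ a i : ℝ) ≤ 2 * X := by
  have hex : ∃ l, i + 2 ≤ (τ.map^[l + 1] [a]).length := ⟨i, L_ge hne hw (i + 1)⟩
  classical
  obtain ⟨l, hl⟩ : ∃ l, l = Nat.find hex := ⟨_, rfl⟩
  have h5 : i + 2 ≤ (τ.map^[l + 1] [a]).length := by rw [hl]; exact Nat.find_spec hex
  have h6 : 2 * l + 3 ≤ 2 * n + 1 := by
    rcases Nat.eq_zero_or_pos l with h7 | h7
    · omega
    · have h8 : ¬ i + 2 ≤ (τ.map^[(l - 1) + 1] [a]).length := by
        apply Nat.find_min hex
        omega
      rw [Nat.sub_add_cancel h7] at h8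
      have := L_ge hne hw l
      omega
  obtain ⟨D, hD⟩ : ∃ D : ℕ, D = len τ a ((τ.map^[l + 1] [a]).length - 1) := ⟨_, rfl⟩
  have h7 : len τ a i ≤ D := by
    rw [hD]
    apply len_mono' hne hw
    omega
  have h8 : (l + 2) * D ≤ (τ.map^[2 * l + 3] [a]).length := by
    have h9 := L_add hne hw (l + 1) (l + 2)
    have e : l + 1 + (l + 2) = 2 * l + 3 := by ring
    rw [e, ← hD] at h9
    omega
  have h9 : ((l : ℝ) + 2) * D ≤ (2 * l + 3) * X := by
    calc ((l : ℝ) + 2) * D ≤ ((τ.map^[2 * l + 3] [a]).length : ℝ) := by exact_mod_cast h8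
      _ ≤ ((2 * l + 3 : ℕ) : ℝ) * σ (2 * l + 3) := hσ _ (by omega)
      _ ≤ ((2 * l + 3 : ℕ) : ℝ) * X :=
          mul_le_mul_of_nonneg_left (hX _ (by omega) h6) (Nat.cast_nonneg _)
      _ = _ := by push_cast; ring
  have hl0 : (0 : ℝ) ≤ l := Nat.cast_nonneg l
  have hD0 : (0 : ℝ) ≤ D := Nat.cast_nonneg D
  have hX0 : 0 ≤ X := by
    by_contra hc
    push Not at hc
    have : (0 : ℝ) ≤ ((l : ℝ) + 2) * D := by positivity
    nlinarith
  have h10 : (D : ℝ) ≤ 2 * X := by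
    by_contra hc
    push Not at hc
    nlinarith
  have h11 : (len τ a i : ℝ) ≤ D := by exact_mod_cast h7
  linarith

/-- The next state is determined by the letter read, so that the rewriting of a letter depends on
this letter and its left neighbour only. -/
def LeftNb {S : Type} (τ : Dgsm S) : Prop := ∃ g : S → τ.Q, ∀ q x, τ.next q x = g x

/-- The reduction. -/
theorem toLn' {S : Type} [Finite S] (τ : Dgsm S) (hne : τ.NonErasing) (a : S) (w : ℕ → S)
    (hw : τ.IsLimit a w) :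
    ∃ (S' : Type) (_ : Finite S') (τ' : Dgsm S') (a' : S') (w' : ℕ → S') (h : S' → Option S)
      (B : ℕ), LeftNb τ' ∧ τ'.NonErasing ∧ τ'.IsLimit a' w' ∧
      (∃ A : ℝ, ∀ n : ℕ, 1 ≤ n → ((τ'.map^[n] [a']).length : ℝ) ≤ A * (n : ℝ) ^ 2) ∧
      (∀ σ : ℕ → ℝ, (∀ n : ℕ, 1 ≤ n → ((τ.map^[n] [a]).length : ℝ) ≤ n * σ n) →
        ∀ (n : ℕ) (X : ℝ), (∀ m : ℕ, 1 ≤ m → m ≤ 2 * n + 1 → σ m ≤ X) →
          ((τ'.map^[n] [a']).length : ℝ) ≤ 1 + n * (2 * X + 1)) ∧
      Er h w' w B 2 := by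
  obtain ⟨S', hS', τ', a', w', h, B, g, h1, -, h3, h4, h5, h6⟩ := toLn τ hne a w hw
  refine ⟨S', hS', τ', a', w', h, B, ⟨g, h1⟩, h3, h4, ?_, ?_, h6⟩
  · obtain ⟨K, hK⟩ := exists_bound τ
    obtain ⟨u, hout, hu, h0, ht⟩ := trace_of_isLimit hne hw
    have hK' : ∀ k, len τ a (k + 1) ≤ len τ a k + K := by
      intro k
      unfold len
      rw [hout]
      exact len_succ_le hK _ _
    have hlb : ∀ k, len τ a k ≤ (len τ a 0 + K) * (k + 1) := by
      intro k
      induction k with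
      | zero => simp
      | succ k ih =>
        have := hK' k
        have e1 : (len τ a 0 + K) * (k + 1 + 1) = (len τ a 0 + K) * (k + 1) +
            (len τ a 0 + K) := by ring
        omega
    refine ⟨((len τ a 0 + K + 2 : ℕ) : ℝ), ?_⟩
    intro n hn
    have h7 : (τ'.map^[n] [a']).length ≤ (len τ a 0 + K + 2) * n ^ 2 := by
      calc (τ'.map^[n] [a']).length ≤ 1 + ∑ i ∈ Finset.range n, (len τ a i + 1) := h5 n
        _ ≤ 1 + ∑ _i ∈ Finset.range n, ((len τ a 0 + K) * n + 1) := by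
            apply Nat.add_le_add_left
            apply Finset.sum_le_sum
            intro i hi
            have h8 := hlb i
            have h9 : i + 1 ≤ n := Finset.mem_range.1 hi
            have h10 := Nat.mul_le_mul_left (len τ a 0 + K) h9
            omega
        _ = 1 + n * ((len τ a 0 + K) * n + 1) := by simp
        _ ≤ _ := by nlinarith
    exact_mod_cast h7
  · intro σ hσ n X hX
    calc ((τ'.map^[n] [a']).length : ℝ) ≤ ((1 + ∑ i ∈ Finset.range n, (len τ a i + 1) : ℕ) : ℝ) := by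
          exact_mod_cast h5 n
      _ = 1 + ∑ i ∈ Finset.range n, ((len τ a i : ℝ) + 1) := by push_cast; rfl
      _ ≤ 1 + ∑ _i ∈ Finset.range n, (2 * X + 1) := by
          apply add_le_add le_rfl
          apply Finset.sum_le_sum
          intro i hi
          have := len_le_growth hne hw hσ hX (Finset.mem_range.1 hi)
          linarith
      _ = _ := by
        rw [Finset.sum_const, Finset.card_range, nsmul_eq_mul]

end Pool.Agent.TH754.DG
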