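import Pool.Agent.TH754.DG.Final

/-!
Simulation of a dgsm by a dgsm whose state is the last letter read.
-/

set_option autoImplicit false

namespace Pool.Agent.TH754.DG

open Pool.Agent.H584R2.Dg Pool.Agent.W614.Dg

/-- Letters of the simulating dgsm: plain letters, the letter which is read next, with the state;
the end mark; the end mark which keeps a state. -/
inductive L1 (Q S : Type)
  | start
  | P (y : S)
  | H (q : Q) (y : S)
  | E
  | G (q : Q)

instance finL1 {Q S : Type} [Finite Q] [Finite S] : Finite (L1 Q S) := by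
  let f : L1 Q S → Option (Option ((S ⊕ Q × S) ⊕ Q)) := fun x => match x with
    | .start => none
    | .E => some none
    | .P y => some (some (Sum.inl (Sum.inl y)))
    | .H q y => some (some (Sum.inl (Sum.inr (q, y))))
    | .G q => some (some (Sum.inr q))
  apply Finite.of_injective f
  intro b b' h
  cases b <;> cases b' <;> simp_all [f]

variable {Q S : Type}

/-- The output of the simulating dgsm. -/
def out1 (δ : Q → S → Q) (ou : Q → S → List S) (b0 : List (L1 Q S)) :
    L1 Q S → L1 Q S → List (L1 Q S)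
  | _, .start => .start :: b0
  | .H q z, .P y => [.H (δ q z) y]
  | .G q, .P y => [.H q y]
  | .H q z, .E => [.G (δ q z)]
  | _, .P y => [.P y]
  | _, .H q y => (ou q y).map .P
  | _, .E => [.E]
  | _, .G _ => [.E]

/-- The simulating dgsm. -/
abbrev ln [Finite S] (τ : Dgsm S) (b0 : List (L1 τ.Q S)) : Dgsm (L1 τ.Q S) where
  Q := L1 τ.Q S
  finQ := by
    have := τ.finQ
    infer_instance
  init := .start
  next := fun _ x => x
  out := out1 τ.next τ.out b0

/-- Plain words. -/
def pw (v : List S) : List (L1 Q S) := v.map .P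

theorem pw_append (v w : List S) : (pw (v ++ w) : List (L1 Q S)) = pw v ++ pw w := by
  simp [pw]

@[simp] theorem pw_length (v : List S) : (pw v : List (L1 Q S)).length = v.length := by
  simp [pw]

/-- Decoding. -/
def dc (a : S) : L1 Q S → Option S
  | .start => some a
  | .H _ y => some y
  | _ => none

theorem filter_pw (a : S) (v : List S) : (pw v : List (L1 Q S)).filterMap (dc a) = [] := by
  rw [List.filterMap_eq_nil_iff]
  intro x hx
  simp only [pw, List.mem_map] at hx
  obtain ⟨y, -, rfl⟩ := hx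
  rfl

/-- States which do not carry information. -/
def Neu : L1 Q S → Prop
  | .start => True
  | .P _ => True
  | .E => True
  | _ => False

section

variable [Finite S] {τ : Dgsm S} {b0 : List (L1 τ.Q S)}

theorem ln_nonErasing (hne : τ.NonErasing) : (ln τ b0).NonErasing := by
  intro q x
  show out1 τ.next τ.out b0 q x ≠ []
  cases q <;> cases x <;> simp [out1, hne _ _]

omit [Finite S] in
theorem ln_P {s : L1 τ.Q S} (hs : Neu s) (y : S) : out1 τ.next τ.out b0 s (.P y) = [.P y] := by
  cases s <;> simp_all [out1, Neu]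

omit [Finite S] in
theorem ln_E {s : L1 τ.Q S} (hs : Neu s) : out1 τ.next τ.out b0 s .E = [.E] := by
  cases s <;> simp_all [out1, Neu]

omit [Finite S] in
theorem ln_H (s : L1 τ.Q S) (q : τ.Q) (y : S) :
    out1 τ.next τ.out b0 s (.H q y) = pw (τ.out q y) := by
  cases s <;> simp [out1, pw]

omit [Finite S] in
theorem ln_G (s : L1 τ.Q S) (q : τ.Q) : out1 τ.next τ.out b0 s (.G q) = [.E] := by
  cases s <;> simp [out1]

theorem run_pw {s : L1 τ.Q S} (hs : Neu s) (v : List S) :
    (ln τ b0).run s (pw v) = pw v ∧ Neu (stAfter (ln τ b0) s (pw v)) := by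
  induction v generalizing s with
  | nil => exact ⟨rfl, hs⟩
  | cons y v ih =>
    have h1 : (ln τ b0).out s (.P y) = [.P y] := ln_P hs y
    obtain ⟨h2, h3⟩ := ih (s := .P y) trivial
    refine ⟨?_, h3⟩
    show (ln τ b0).out s (.P y) ++ (ln τ b0).run (.P y) (pw v) = _
    rw [h1, h2]
    rfl

/-- The block of a configuration of the queue. -/
def bk (q : Q) (x : S) (A C : List S) : List (L1 Q S) := pw A ++ .H q x :: (pw C ++ [.E])

omit [Finite S] in
@[simp] theorem bk_length (q : Q) (x : S) (A C : List S) :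
    (bk q x A C).length = A.length + C.length + 2 := by
  simp [bk]
  omega

omit [Finite S] in
theorem filter_bk (a : S) (q : Q) (x : S) (A C : List S) :
    (bk q x A C).filterMap (dc a) = [x] := by
  unfold bk
  have h1 : ((pw C ++ [.E] : List (L1 Q S))).filterMap (dc a) = [] := by
    rw [List.filterMap_append, filter_pw]
    rfl
  rw [List.filterMap_append, filter_pw, List.filterMap_cons_some (f := dc a) (a := .H q x) (b := x) rfl, h1]
  rfl

/-- One rotation, the head is not at the end. -/
theorem rot1 {s : L1 τ.Q S} (hs : Neu s) (q : τ.Q) (x y : S) (A C : List S) :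
    Rd (ln τ b0) (s, bk q x A (y :: C)) (bk q x A (y :: C))
      (.E, bk (τ.next q x) y (A ++ τ.out q x) C) := by
  have h0 := Rd.full (ln τ b0) s (bk q x A (y :: C))
  obtain ⟨h1, h2⟩ := run_pw (b0 := b0) hs A
  obtain ⟨h3, h4⟩ := run_pw (b0 := b0) (s := (.P y : L1 τ.Q S)) trivial C
  have e1 : stAfter (ln τ b0) s (bk q x A (y :: C)) = .E := by
    unfold bk
    rw [stAfter_append]
    show stAfter (ln τ b0) _ (pw C ++ [.E]) = _
    rw [stAfter_append]
    rfl
  have e2 : (ln τ b0).run s (bk q x A (y :: C)) = bk (τ.next q x) y (A ++ τ.out q x) C := by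
    unfold bk
    rw [run_append, h1]
    show pw A ++ ((ln τ b0).out (stAfter (ln τ b0) s (pw A)) (.H q x) ++
      ((ln τ b0).out (.H q x) (.P y) ++ (ln τ b0).run (.P y) (pw C ++ [.E]))) = _
    have h5 : (ln τ b0).out (stAfter (ln τ b0) s (pw A)) (.H q x) = pw (τ.out q x) :=
      ln_H (b0 := b0) (stAfter (ln τ b0) s (pw A)) q x
    have h6 : (ln τ b0).out (.H q x) (.P y) = [.H (τ.next q x) y] := rfl
    rw [h5, h6, run_append, h3]
    have h7 : (ln τ b0).run (stAfter (ln τ b0) (.P y) (pw C)) [.E] = [.E] := by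
      show (ln τ b0).out (stAfter (ln τ b0) (.P y) (pw C)) .E ++ [] = _
      have : (ln τ b0).out (stAfter (ln τ b0) (.P y) (pw C)) .E = [.E] := ln_E h4
      rw [this]
      rfl
    rw [h7, pw_append]
    simp
  rw [e1, e2] at h0
  exact h0

/-- Three rotations, the head is at the end. -/
theorem rot2 {s : L1 τ.Q S} (hs : Neu s) (q : τ.Q) (x z : S) (A v : List S)
    (hv : A ++ τ.out q x = z :: v) :
    Rd (ln τ b0) (s, bk q x A []) (bk q x A [] ++ (pw (z :: v) ++ [.G (τ.next q x)]) ++
      (pw (z :: v) ++ [.E])) (.E, bk (τ.next q x) z [] v) := by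
  have h0 := Rd.full (ln τ b0) s (bk q x A [])
  obtain ⟨h1, h2⟩ := run_pw (b0 := b0) hs A
  have e1 : stAfter (ln τ b0) s (bk q x A []) = .E := by
    unfold bk
    rw [stAfter_append]
    rfl
  have e2 : (ln τ b0).run s (bk q x A []) = pw (z :: v) ++ [.G (τ.next q x)] := by
    unfold bk
    rw [run_append, h1]
    show pw A ++ ((ln τ b0).out (stAfter (ln τ b0) s (pw A)) (.H q x) ++
      ((ln τ b0).out (.H q x) .E ++ [])) = _
    have h5 : (ln τ b0).out (stAfter (ln τ b0) s (pw A)) (.H q x) = pw (τ.out q x) :=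
      ln_H (b0 := b0) (stAfter (ln τ b0) s (pw A)) q x
    have h6 : (ln τ b0).out (.H q x) .E = [.G (τ.next q x)] := rfl
    rw [h5, h6, ← hv, pw_append]
    simp
  rw [e1, e2] at h0
  have h3 := Rd.full (ln τ b0) (.E : L1 τ.Q S) (pw (z :: v) ++ [.G (τ.next q x)])
  obtain ⟨h4, h5⟩ := run_pw (b0 := b0) (s := (.E : L1 τ.Q S)) trivial (z :: v)
  have e3 : stAfter (ln τ b0) (.E : L1 τ.Q S) (pw (z :: v) ++ [.G (τ.next q x)]) =
      .G (τ.next q x) := by
    rw [stAfter_append]
    rfl
  have e4 : (ln τ b0).run (.E : L1 τ.Q S) (pw (z :: v) ++ [.G (τ.next q x)]) =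
      pw (z :: v) ++ [.E] := by
    rw [run_append, h4]
    show _ ++ ((ln τ b0).out _ (.G (τ.next q x)) ++ []) = _
    have : (ln τ b0).out (stAfter (ln τ b0) (.E : L1 τ.Q S) (pw (z :: v)))
      (.G (τ.next q x)) = [.E] :=
      ln_G (b0 := b0) (stAfter (ln τ b0) (.E : L1 τ.Q S) (pw (z :: v))) (τ.next q x)
    rw [this]
    rfl
  rw [e3, e4] at h3
  have h6 := Rd.full (ln τ b0) (.G (τ.next q x) : L1 τ.Q S) (pw (z :: v) ++ [.E])
  obtain ⟨h7, h8⟩ := run_pw (b0 := b0) (s := (.P z : L1 τ.Q S)) trivial v
  have e5 : stAfter (ln τ b0) (.G (τ.next q x) : L1 τ.Q S) (pw (z :: v) ++ [.E]) = .E := by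
    rw [stAfter_append]
    rfl
  have e6 : (ln τ b0).run (.G (τ.next q x) : L1 τ.Q S) (pw (z :: v) ++ [.E]) =
      bk (τ.next q x) z [] v := by
    show (ln τ b0).out (.G (τ.next q x)) (.P z) ++ (ln τ b0).run (.P z) (pw v ++ [.E]) = _
    have h9 : (ln τ b0).out (.G (τ.next q x)) (.P z) = [.H (τ.next q x) z] := rfl
    rw [h9, run_append, h7]
    have h10 : (ln τ b0).run (stAfter (ln τ b0) (.P z) (pw v)) [.E] = [.E] := by
      show (ln τ b0).out (stAfter (ln τ b0) (.P z) (pw v)) .E ++ [] = _
      have : (ln τ b0).out (stAfter (ln τ b0) (.P z) (pw v)) .E = [.E] := ln_E h8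
      rw [this]
      rfl
    rw [h10]
    rfl
  rw [e5, e6] at h6
  exact (h0.trans h3).trans h6

/-- The next arrangement of the queue. -/
def nx (τ : Dgsm S) (q : τ.Q) (x : S) : List S × List S → List S × List S
  | (A, _ :: C) => (A ++ τ.out q x, C)
  | (A, []) => ([], (A ++ τ.out q x).tail)

/-- One step of the queue. -/
theorem stage (hne : τ.NonErasing) {s : L1 τ.Q S} (hs : Neu s) (a : S) (q : τ.Q) (x x' : S)
    (p : List S × List S) (ys' : List S) (hy : p.2 ++ p.1 ++ τ.out q x = x' :: ys') :
    (nx τ q x p).2 ++ (nx τ q x p).1 = ys' ∧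
    ∃ W, Rd (ln τ b0) (s, bk q x p.1 p.2) W
        (.E, bk (τ.next q x) x' (nx τ q x p).1 (nx τ q x p).2) ∧
      W.filterMap (dc a) = [x] ∧ p.2.length + p.1.length + 2 ≤ W.length ∧
      W.length ≤ 3 * (ys'.length + 2) := by
  obtain ⟨A, C⟩ := p
  have hl := congrArg List.length hy
  have hout := List.length_pos_of_ne_nil (hne q x)
  simp only [List.length_append, List.length_cons] at hl
  cases C with
  | cons y C =>
    simp only [List.cons_append, List.cons.injEq] at hy
    obtain ⟨rfl, hy⟩ := hy
    refine ⟨?_, bk q x A (y :: C), rot1 hs q x y A C, filter_bk _ _ _ _ _, ?_, ?_⟩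
    · simp only [nx]
      rw [← hy, List.append_assoc]
    · simp only [bk_length, List.length_cons]
      omega
    · simp only [bk_length, List.length_cons] at hl ⊢
      omega
  | nil =>
    simp only [List.nil_append] at hy
    have h1 : nx τ q x (A, []) = ([], ys') := by
      simp only [nx, hy, List.tail_cons]
    rw [h1]
    refine ⟨by simp, _, rot2 hs q x x' A ys' hy, ?_, ?_, ?_⟩
    · rw [List.filterMap_append, List.filterMap_append, List.filterMap_append,
        List.filterMap_append, filter_bk, filter_pw]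
      rfl
    · simp only [List.length_append, bk_length, List.length_nil]
      omega
    · simp only [List.length_append, bk_length, List.length_nil, pw_length, List.length_cons,
        List.length_nil] at hl ⊢
      omega

end

end Pool.Agent.TH754.DG
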