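import Pool.Agent.TH754.DG.LN

/-!
The infinite word of the dgsm whose state is the last letter read.
-/

set_option autoImplicit false

namespace Pool.Agent.TH754.DG

open Pool.Agent.H584R2.Dg Pool.Agent.W614.Dg

/-- Simulation by a dgsm whose state is the last letter read. -/
theorem toLn {S : Type} [Finite S] (τ : Dgsm S) (hne : τ.NonErasing) (a : S) (w : ℕ → S)
    (hw : τ.IsLimit a w) :
    ∃ (S' : Type) (_ : Finite S') (τ' : Dgsm S') (a' : S') (w' : ℕ → S') (h : S' → Option S)
      (B : ℕ) (g : S' → τ'.Q), (∀ q x, τ'.next q x = g x) ∧ g a' = τ'.init ∧ τ'.NonErasing ∧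
      τ'.IsLimit a' w' ∧
      (∀ n, (τ'.map^[n] [a']).length ≤ 1 + ∑ i ∈ Finset.range n, (len τ a i + 1)) ∧
      Er h w' w B 2 := by
  have := τ.finQ
  obtain ⟨K, hK⟩ := exists_bound τ
  obtain ⟨u, hout, hu, h0, ht⟩ := trace_of_isLimit hne hw
  -- the queue of `τ`
  obtain ⟨c, hc⟩ : ∃ c : ℕ → τ.Q × List S, c = qconf τ (τ.next τ.init a, u) := ⟨_, rfl⟩
  have hlen : ∀ k, len τ a k = (c k).2.length := by
    intro k
    rw [hc]
    unfold len
    rw [hout]
    rfl
  obtain ⟨ys, hys⟩ : ∃ ys : ℕ → List S, ys = fun k => (c k).2.tail := ⟨_, rfl⟩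
  have hcons : ∀ k, (c k).2 = w (k + 1) :: ys k := by
    intro k
    have := ht k
    rw [← hc] at this
    rw [hys]
    simp only
    rcases h : (c k).2 with _ | ⟨x, v⟩
    · rw [h] at this; simp at this
    · rw [h] at this
      simp only [List.head?_cons, Option.some.injEq] at this
      rw [this]
      rfl
  have hlen2 : ∀ k, len τ a k = (ys k).length + 1 := by
    intro k
    rw [hlen, hcons]
    rfl
  have hstep : ∀ k, (c (k + 1)).1 = τ.next (c k).1 (w (k + 1)) ∧
      ys k ++ τ.out (c k).1 (w (k + 1)) = w (k + 1 + 1) :: ys (k + 1) := by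
    intro k
    have h1 : c (k + 1) = qstep τ (c k) := by rw [hc, qconf_succ]
    have h2 : c k = ((c k).1, w (k + 1) :: ys k) := by rw [← hcons]
    have h3 : c (k + 1) = (τ.next (c k).1 (w (k + 1)), ys k ++ τ.out (c k).1 (w (k + 1))) := by
      rw [h1]
      conv_lhs => rw [h2]
      rfl
    refine ⟨by rw [h3], ?_⟩
    rw [← hcons (k + 1), h3]
  -- the arrangements
  obtain ⟨p, hp⟩ : ∃ p : ℕ → List S × List S, p = fun k => Nat.rec (([], ys 0) : List S × List S)
      (fun k p => nx τ (c k).1 (w (k + 1)) p) k := ⟨_, rfl⟩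
  have hp0 : p 0 = ([], ys 0) := by
    subst hp
    rfl
  have hps : ∀ k, p (k + 1) = nx τ (c k).1 (w (k + 1)) (p k) := by
    intro k
    subst hp
    rfl
  obtain ⟨b0, hb0⟩ : ∃ b0 : List (L1 τ.Q S), b0 = bk (c 0).1 (w 1) (p 0).1 (p 0).2 := ⟨_, rfl⟩
  have hpy : ∀ k, (p k).2 ++ (p k).1 = ys k := by
    intro k
    induction k with
    | zero => rw [hp0]; simp
    | succ k ih =>
      rw [hps]
      exact (stage (b0 := b0) hne (s := (.E : L1 τ.Q S)) trivial a (c k).1 (w (k + 1))
        (w (k + 1 + 1)) (p k) (ys (k + 1)) (by rw [ih]; exact (hstep k).2)).1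
  obtain ⟨st, hst⟩ : ∃ st : ℕ → L1 τ.Q S, st = fun k => match k with
      | 0 => .start
      | _ + 1 => .E := ⟨_, rfl⟩
  have hst0 : st 0 = .start := by rw [hst]
  have hsts : ∀ k, st (k + 1) = .E := by intro k; rw [hst]
  have hneu : ∀ k, Neu (st k) := by
    intro k
    cases k with
    | zero => rw [hst0]; trivial
    | succ k => rw [hsts]; trivial
  obtain ⟨blk, hblk⟩ : ∃ blk : ℕ → List (L1 τ.Q S),
      blk = fun k => bk (c k).1 (w (k + 1)) (p k).1 (p k).2 := ⟨_, rfl⟩
  have hblk0 : blk 0 = b0 := by rw [hblk, hb0]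
  have hmac : ∀ k, ∃ W, Rd (ln τ b0) (st k, blk k) W (st (k + 1), blk (k + 1)) ∧
      W.filterMap (dc a) = [w (k + 1)] ∧ len τ a k + 1 ≤ W.length ∧
      W.length ≤ 3 * (len τ a (k + 1) + 1) := by
    intro k
    obtain ⟨-, W, h1, h2, h3, h4⟩ := stage (b0 := b0) hne (hneu k) a (c k).1 (w (k + 1))
      (w (k + 1 + 1)) (p k) (ys (k + 1)) (by rw [hpy]; exact (hstep k).2)
    refine ⟨W, ?_, h2, ?_, ?_⟩
    · rw [hsts, hblk]
      simp only
      rw [hps, (hstep k).1]
      exact h1
    · have := congrArg List.length (hpy k)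
      simp only [List.length_append] at this
      have := hlen2 k
      omega
    · have := hlen2 (k + 1)
      omega
  choose W hW1 hW2 hW3 hW4 using hmac
  obtain ⟨R, hR⟩ : ∃ R : ℕ → ℕ, R = fun k => ∑ j ∈ Finset.range k, (W j).length := ⟨_, rfl⟩
  have hR0 : R 0 = 0 := by rw [hR]; simp
  have hRs : ∀ k, R (k + 1) = R k + (W k).length := by
    intro k
    rw [hR]
    simp only [Finset.sum_range_succ]
  have hconf : ∀ k, qconf (ln τ b0) (st 0, b0) (R k) = (st k, blk k) := by
    intro k
    induction k with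
    | zero => rw [hR0, hblk0]; rfl
    | succ k ih =>
      rw [hRs, qconf_add, ih]
      exact (hW1 k).1
  have hne2 : (ln τ b0).NonErasing := ln_nonErasing hne
  have hb0' : b0 ≠ [] := by
    rw [hb0]
    simp [bk]
  -- the word
  obtain ⟨w', hw'⟩ : ∃ w' : ℕ → L1 τ.Q S, w' = fun r => match r with
    | 0 => .start
    | r + 1 => ((qconf (ln τ b0) (st 0, b0) r).2.head?).getD .start := ⟨_, rfl⟩
  have htr : IsTrace (ln τ b0) (st 0, b0) (fun r => w' (r + 1)) := by
    intro r
    have h1 := qconf_mono hne2 (st 0, b0) (Nat.zero_le r)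
    rw [qconf_zero] at h1
    have h2 := List.length_pos_of_ne_nil hb0'
    simp only [hw']
    rcases h : (qconf (ln τ b0) (st 0, b0) r).2 with _ | ⟨x, v⟩
    · rw [h] at h1
      simp only [List.length_nil] at h1
      omega
    · simp
  have hlim := isLimit_of_trace (τ := ln τ b0) hne2 (a := .start) (u := b0) rfl hb0'
    (w := w') (by rw [hw']) (by rw [hst0] at htr; exact htr)
  have hw0 : w' 0 = .start := by rw [hw']
  have hhead : ∀ k i (hi : i < (W k).length), w' (R k + i + 1) = (W k)[i] := by
    intro k i hi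
    have h1 := htr (R k + i)
    have h2 := (hW1 k).2 i hi
    rw [qconf_add, hconf] at h1
    exact (Option.some.inj (h2.symm.trans h1)).symm
  have hpre : ∀ k, pre w' (R (k + 1) + 1) = pre w' (R k + 1) ++ W k := by
    intro k
    apply List.ext_getElem
    · simp only [pre_length, List.length_append, hRs]
      omega
    · intro i h1 h2
      rw [List.getElem_append]
      split_ifs with h3
      · simp
      · simp only [pre_length, not_lt] at h3
        obtain ⟨j, rfl⟩ : ∃ j, i = R k + j + 1 := ⟨i - R k - 1, by omega⟩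
        rw [pre_getElem, hhead]
        · congr 1
          simp only [pre_length]
          omega
        · simp only [pre_length, hRs] at h1
          omega
  have hfil : ∀ k, (pre w' (R k + 1)).filterMap (dc a) = pre w (k + 1) := by
    intro k
    induction k with
    | zero =>
      rw [hR0, pre_one, pre_one, hw0, h0]
      rfl
    | succ k ih =>
      rw [hpre, List.filterMap_append, ih, hW2, ← pre_succ]
  have hlR : ∀ k, k ≤ R k := by
    intro k
    induction k with
    | zero => exact Nat.zero_le _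
    | succ k ih =>
      have := hW3 k
      rw [hRs]
      omega
  -- lengths
  have hK' : ∀ k, len τ a (k + 1) ≤ len τ a k + K := by
    intro k
    rw [hlen, hlen, hc]
    exact len_succ_le hK _ _
  have hblen : ∀ k, (blk k).length = len τ a k + 1 := by
    intro k
    rw [hlen2, hblk]
    simp only [bk_length]
    have := congrArg List.length (hpy k)
    simp only [List.length_append] at this
    omega
  have hgr : ∀ n, ((ln τ b0).map^[n] [.start]).length ≤ R n + 1 ∧
      ((ln τ b0).map^[n] [.start]).length ≤ 1 + ∑ i ∈ Finset.range n, (len τ a i + 1) := by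
    intro n
    induction n with
    | zero => simp
    | succ n ih =>
      obtain ⟨ih1, ih2⟩ := ih
      rw [hlim.2.2 n, Finset.sum_range_succ, hRs]
      have h1 := qconf_mono hne2 (st 0, b0)
        (r := ((ln τ b0).map^[n] [.start]).length - 1) (s := R n) (by omega)
      rw [hconf, hst0] at h1
      have h3 := hW3 n
      have h6 : (qconf (ln τ b0) (.start, b0)
          (((ln τ b0).map^[n] [.start]).length - 1)).2.length ≤ len τ a n + 1 :=
        h1.trans (hblen n).le
      refine ⟨?_, ?_⟩
      · refine le_trans (Nat.add_le_add_left h6 _) ?_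
        omega
      · refine le_trans (Nat.add_le_add_left h6 _) ?_
        omega
  -- polynomial bound of `R`
  have hlb : ∀ k, len τ a k ≤ (len τ a 0 + K) * (k + 1) := by
    intro k
    induction k with
    | zero => simp
    | succ k ih =>
      have := hK' k
      have e1 : (len τ a 0 + K) * (k + 1 + 1) = (len τ a 0 + K) * (k + 1) + (len τ a 0 + K) := by
        ring
      omega
  obtain ⟨B1, hB1⟩ : ∃ B1 : ℕ, B1 = 6 * (len τ a 0 + K + 1) := ⟨_, rfl⟩
  have hRb : ∀ k, R k ≤ B1 * k ^ 2 := by
    intro k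
    induction k with
    | zero => simp [hR0]
    | succ k ih =>
      rw [hRs]
      have h1 := hW4 k
      have h3 := hlb (k + 1)
      have h4 : (W k).length ≤ B1 * (k + 1) := by
        rw [hB1]
        nlinarith
      calc R k + (W k).length ≤ B1 * k ^ 2 + B1 * (k + 1) := Nat.add_le_add ih h4
        _ = B1 * (k ^ 2 + (k + 1)) := by ring
        _ ≤ B1 * (k + 1) ^ 2 := Nat.mul_le_mul_left _ (by nlinarith)
  refine ⟨L1 τ.Q S, inferInstance, ln τ b0, .start, w', dc a, B1 + 1, id, fun _ _ => rfl, rfl,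
    hne2, hlim.1, fun n => (hgr n).2, ?_, ?_⟩
  · intro n
    have h1 : ((List.range n).map w').filterMap (dc a) <+: pre w (n + 1) := by
      rw [← hfil]
      apply List.IsPrefix.filterMap
      apply pre_prefix
      have := hlR n
      omega
    refine isPre_of_prefix h1 ?_
    rw [isPre_iff]
    simp
  · intro n hn
    obtain ⟨k, rfl⟩ : ∃ k, n = k + 1 := ⟨n - 1, by omega⟩
    have h1 : (pre w (k + 1)).length = k + 1 := pre_length _ _
    rw [← hfil] at h1
    rw [← h1]
    conv_rhs => rw [h1]
    apply List.IsPrefix.length_le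
    apply List.IsPrefix.filterMap
    apply pre_prefix
    have h2 := hRb k
    have h3 : k ^ 2 ≤ (k + 1) ^ 2 := Nat.pow_le_pow_left (by omega) 2
    have h4 : 1 ≤ (k + 1) ^ 2 := Nat.one_le_pow _ _ (by omega)
    have h5 := Nat.mul_le_mul_left B1 h3
    rw [add_mul]
    omega

end Pool.Agent.TH754.DG
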