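import Pool.Agent.TH754.DG.Sim

/-!
One rotation of the queue.
-/

set_option autoImplicit false

namespace Pool.Agent.TH754.DG

open Pool.Agent.H584R2.Dg Pool.Agent.W614.Dg

variable {k : ℕ} {S : Type} (M : Machine k S)

/-- The first `m` cells contain the heads and everything written. -/
structure Ok (c : Cfg M) (m : ℕ) : Prop where
  pos : 1 ≤ m
  hd : ∀ j, (c.tape j).head < m
  bl : ∀ j i, m ≤ i → (c.tape j).cell i = M.blank

open Classical in
/-- The new number of cells. -/
noncomputable def wd1 (c : Cfg M) (m : ℕ) : ℕ :=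
  if Leaves (tr M c).2.1 (cl M c (m - 1)) then m + 1 else m

theorem step_tape (c : Cfg M) (j : Fin k) : ((M.step c).tape j) =
    ⟨Function.update (c.tape j).cell (c.tape j).head ((tr M c).2.1 j).1,
      ((tr M c).2.1 j).2.move (c.tape j).head⟩ := rfl

theorem leaves_iff (c : Cfg M) (m : ℕ) : Leaves (tr M c).2.1 (cl M c (m - 1)) ↔
    ∃ j, ((tr M c).2.1 j).2 = Dir.right ∧ (c.tape j).head = m - 1 := by
  unfold Leaves cl
  simp only [decide_eq_true_eq]

theorem le_wd1 (c : Cfg M) (m : ℕ) : m ≤ wd1 M c m := by
  unfold wd1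
  split_ifs <;> omega

theorem wd1_le (c : Cfg M) (m : ℕ) : wd1 M c m ≤ m + 1 := by
  unfold wd1
  split_ifs <;> omega

theorem Ok.step {M : Machine k S} {c : Cfg M} {m : ℕ} (h : Ok M c m) :
    Ok M (M.step c) (wd1 M c m) := by
  refine ⟨h.pos.trans (le_wd1 M c m), ?_, ?_⟩
  · intro j
    rw [step_tape]
    have h1 := h.hd j
    have h2 := h.pos
    simp only
    unfold wd1
    split_ifs with h3
    · cases ((tr M c).2.1 j).2 <;> simp only [Dir.move] <;> omega
    · rw [leaves_iff] at h3
      push Not at h3
      have h4 := h3 j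
      cases h5 : ((tr M c).2.1 j).2 with
      | left => simp only [Dir.move]; omega
      | stay => simp only [Dir.move]; omega
      | right =>
        have := h4 h5
        simp only [Dir.move]
        omega
  · intro j i hi
    have h1 := le_wd1 M c m
    have h2 := h.hd j
    rw [step_tape]
    simp only [Function.update_apply]
    rw [if_neg (by omega)]
    exact h.bl j i (by omega)

theorem cells_succ (c : Cfg M) (m : ℕ) :
    cells M c (m + 1) = cells M c m ++ [.cell (cl M c m)] := by
  simp [cells, List.range_succ]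

@[simp] theorem cells_length (c : Cfg M) (m : ℕ) : (cells M c m).length = m := by simp [cells]

theorem rd_one {T : Type} (τ : Dgsm T) (q : τ.Q) (x : T) (v : List T) :
    Rd τ (q, x :: v) [x] (τ.next q x, v ++ τ.out q x) := by
  refine ⟨rfl, ?_⟩
  intro i hi
  have : i = 0 := by simpa using hi
  subst this
  rfl

open Classical in
theorem wd1_succ (c : Cfg M) (i : ℕ) :
    wd1 M c (i + 1) = if Leaves (tr M c).2.1 (cl M c i) then i + 1 + 1 else i + 1 := rfl

variable [Finite S]

theorem simM_next (q : Qs k M.St M.Sym S) (x : Lt k M.Sym S) :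
    (simM M).next q x = nextS M q x := rfl

theorem simM_out (q : Qs k M.St M.Sym S) (x : Lt k M.Sym S) :
    (simM M).out q x = outS M q x := rfl

omit [Finite S] in
theorem stAfter_one {T : Type} (τ : Dgsm T) (q : τ.Q) (x : T) : stAfter τ q [x] = τ.next q x := rfl

omit [Finite S] in
theorem run_one {T : Type} (τ : Dgsm T) (q : τ.Q) (x : T) : τ.run q [x] = τ.out q x ++ [] := rfl

/-- Reading the cells. -/
theorem read_cells (c : Cfg M) (o : Option S) (i : ℕ) :
    stAfter (simM M) (.top (tr M c) o) (cells M c (i + 1)) =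
      .mid (tr M c) (ac M (M.step c) i) (lft M c i) (cl M c i) ∧
    (simM M).run (.top (tr M c) o) (cells M c (i + 1)) = .E o :: cells M (M.step c) i := by
  induction i with
  | zero =>
    refine ⟨?_, ?_⟩
    · rw [ac_zero]
      rfl
    · rfl
  | succ i ih =>
    obtain ⟨h1, h2⟩ := ih
    rw [cells_succ M c (i + 1)]
    refine ⟨?_, ?_⟩
    · rw [stAfter_append, h1]
      rw [stAfter_one, simM_next]
      simp only [nextS]
      rw [new_cl, accu_ac]
      rfl
    · rw [run_append, h1, h2]
      rw [run_one, simM_out]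
      simp only [outS]
      rw [new_cl, cells_succ M (M.step c) i]
      simp

omit [Finite S] in
theorem cl_unmarked {M : Machine k S} {c : Cfg M} {m : ℕ} (h : Ok M c m) {i : ℕ} (hi : m ≤ i)
    (j : Fin k) : (cl M c i j).2 = false := by
  have := h.hd j
  simp only [cl, decide_eq_false_iff_not]
  omega

omit [Finite S] in
theorem fresh_eq {M : Machine k S} {c : Cfg M} {m : ℕ} (h : Ok M c (m + 1)) :
    fresh M.blank (tr M c).2.1 (cl M c m) = cl M (M.step c) (m + 1) := by
  rw [← new_cl]
  funext j
  have h1 : (cl M c (m + 1) j).2 = false := cl_unmarked h le_rfl j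
  have h2 : (cl M c (m + 1 + 1) j).2 = false := cl_unmarked h (by omega) j
  have h3 : (cl M c (m + 1) j).1 = M.blank := h.bl j _ le_rfl
  have h4 : lft M c (m + 1) = some (cl M c m) := by
    unfold lft
    rw [if_neg (by omega), Nat.add_sub_cancel]
  rw [h4]
  simp only [fresh, new, h1, h2, h3, mk]
  cases ((tr M c).2.1 j).2 <;> simp

omit [Finite S] in
theorem ac_full {M : Machine k S} {c : Cfg M} {m : ℕ} (h : Ok M c m) :
    M.δ c.st (ac M c m) = tr M c := by
  unfold tr
  congr 1
  funext j
  simp only [ac]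
  rw [if_pos (h.hd j)]

/-- One rotation. -/
theorem rotation {M : Machine k S} {c : Cfg M} {m : ℕ} (h : Ok M c m) (o : Option S) :
    Rd (simM M) (.top (tr M c) o, cells M c m) (cells M c m ++ [.E o])
      (.top (tr M (M.step c)) (tr M c).2.2, cells M (M.step c) (wd1 M c m)) := by
  obtain ⟨i, rfl⟩ : ∃ i, m = i + 1 := ⟨m - 1, by have := h.pos; omega⟩
  obtain ⟨h1, h2⟩ := read_cells M c o i
  have h3 := Rd.full (simM M) (.top (tr M c) o) (cells M c (i + 1))
  rw [h1, h2] at h3
  refine h3.trans ?_
  have h4 := rd_one (simM M) (.mid (tr M c) (ac M (M.step c) i) (lft M c i) (cl M c i)) (.E o)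
    (cells M (M.step c) i)
  have hn : new (tr M c).2.1 (lft M c i) (cl M c i) none = cl M (M.step c) i := by
    rw [new_none _ _ _ (cl M c (i + 1)) (cl_unmarked h le_rfl), new_cl]
  have hst : (M.step c).st = (tr M c).1 := rfl
  have hok := h.step
  have h5 : (simM M).next (.mid (tr M c) (ac M (M.step c) i) (lft M c i) (cl M c i)) (.E o) =
      .top (tr M (M.step c)) (tr M c).2.2 := by
    rw [simM_next]
    simp only [nextS]
    rw [hn, accu_ac, fresh_eq h, accu_ac]
    rw [wd1_succ] at hok
    split_ifs with h6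
    · rw [if_pos h6] at hok
      rw [← hst, ac_full hok]
    · rw [if_neg h6] at hok
      rw [← hst, ac_full hok]
  have h6 : cells M (M.step c) i ++ (simM M).out
      (.mid (tr M c) (ac M (M.step c) i) (lft M c i) (cl M c i)) (.E o) =
      cells M (M.step c) (wd1 M c (i + 1)) := by
    rw [simM_out]
    simp only [outS]
    rw [hn, fresh_eq h, wd1_succ]
    split_ifs with h6
    · rw [cells_succ, cells_succ]
      simp
    · rw [cells_succ]
  rw [h5, h6] at h4
  exact h4

end Pool.Agent.TH754.DG
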