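import Pool.Agent.W614.Dg.Sim

/-!
Simulation of a generating machine by iterating a dgsm: one rotation of the queue is one step.
-/

set_option autoImplicit false

namespace Pool.Agent.TH754.DG

open Pool.Agent.H584R2.Dg Pool.Agent.W614.Dg

/-- One cell of the `k` tapes with head marks. -/
abbrev Cell (k : ℕ) (Γ : Type) := Fin k → Γ × Bool

/-- Letters of the simulating dgsm. -/
inductive Lt (k : ℕ) (Γ S : Type)
  | start
  | cell (c : Cell k Γ)
  | E (o : Option S)

/-- The result of the transition function. -/
abbrev Tr (k : ℕ) (St Γ S : Type) := St × (Fin k → Γ × Dir) × Option S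

/-- States of the simulating dgsm. -/
inductive Qs (k : ℕ) (St Γ S : Type)
  | ini
  | top (r : Tr k St Γ S) (o : Option S)
  | mid (r : Tr k St Γ S) (acc : Fin k → Γ) (a : Option (Cell k Γ)) (b : Cell k Γ)

variable {k : ℕ} {S : Type}

/-- Head mark of an optional cell. -/
def mk {Γ : Type} (x : Option (Cell k Γ)) (j : Fin k) : Bool :=
  match x with
  | some x => (x j).2
  | none => false

/-- The new contents of a cell, from its left neighbour, the cell, and its right neighbour. -/
def new {Γ : Type} (act : Fin k → Γ × Dir) (a : Option (Cell k Γ)) (b : Cell k Γ)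
    (c : Option (Cell k Γ)) : Cell k Γ := fun j =>
  (if (b j).2 then (act j).1 else (b j).1,
    match (act j).2 with
    | .stay => (b j).2
    | .left => (a.isNone && (b j).2) || mk c j
    | .right => mk a j)

/-- Collecting the scanned symbols. -/
def accu {Γ : Type} (acc : Fin k → Γ) (x : Cell k Γ) : Fin k → Γ := fun j =>
  if (x j).2 then (x j).1 else acc j

/-- Does a head leave the last cell to the right? -/
def Leaves {Γ : Type} (act : Fin k → Γ × Dir) (b : Cell k Γ) : Prop :=
  ∃ j, (act j).2 = Dir.right ∧ (b j).2 = true

/-- The fresh cell. -/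
def fresh {Γ : Type} (blank : Γ) (act : Fin k → Γ × Dir) (b : Cell k Γ) : Cell k Γ := fun j =>
  (blank, match (act j).2 with
    | .right => (b j).2
    | _ => false)

open Classical in
/-- Output of the simulating dgsm. -/
noncomputable def outS (M : Machine k S) :
    Qs k M.St M.Sym S → Lt k M.Sym S → List (Lt k M.Sym S)
  | .ini, _ => [.start, .cell (fun _ => (M.blank, true))]
  | .top _ o, _ => [.E o]
  | .mid r _ a b, .cell c => [.cell (new r.2.1 a b (some c))]
  | .mid r _ a b, .E _ => if Leaves r.2.1 b then
      [.cell (new r.2.1 a b none), .cell (fresh M.blank r.2.1 b)]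
      else [.cell (new r.2.1 a b none)]
  | .mid _ _ _ _, .start => [.start]

open Classical in
/-- Next state of the simulating dgsm. -/
noncomputable def nextS (M : Machine k S) :
    Qs k M.St M.Sym S → Lt k M.Sym S → Qs k M.St M.Sym S
  | .ini, _ => .top (M.δ M.start (fun _ => M.blank)) none
  | .top r _, .cell c => .mid r (fun _ => M.blank) none c
  | .top r o, _ => .top r o
  | .mid r acc a b, .cell c => .mid r (accu acc (new r.2.1 a b (some c))) (some b) c
  | .mid r acc a b, .E _ => if Leaves r.2.1 b then
      .top (M.δ r.1 (accu (accu acc (new r.2.1 a b none)) (fresh M.blank r.2.1 b))) r.2.2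
      else .top (M.δ r.1 (accu acc (new r.2.1 a b none))) r.2.2
  | .mid r acc a b, .start => .mid r acc a b

instance finDir : Finite Dir := by
  apply Finite.of_injective (fun d : Dir => match d with
    | .left => (0 : Fin 3)
    | .stay => 1
    | .right => 2)
  intro a b h
  cases a <;> cases b <;> simp_all

instance finLt {Γ : Type} [Finite Γ] [Finite S] : Finite (Lt k Γ S) := by
  let f : Lt k Γ S → Option (Cell k Γ ⊕ Option S) := fun x => match x with
    | .start => none
    | .cell c => some (Sum.inl c)
    | .E o => some (Sum.inr o)
  apply Finite.of_injective f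
  intro b b' h
  cases b <;> cases b' <;> simp_all [f]

instance finQs {St Γ : Type} [Finite St] [Finite Γ] [Finite S] : Finite (Qs k St Γ S) := by
  let f : Qs k St Γ S → Option ((Tr k St Γ S × Option S) ⊕
      (Tr k St Γ S × (Fin k → Γ) × Option (Cell k Γ) × Cell k Γ)) := fun x => match x with
    | .ini => none
    | .top r o => some (Sum.inl (r, o))
    | .mid r acc a b => some (Sum.inr (r, acc, a, b))
  apply Finite.of_injective f
  intro b b' h
  cases b <;> cases b' <;> simp_all [f]

/-- The simulating dgsm. -/
noncomputable abbrev simM [Finite S] (M : Machine k S) : Dgsm (Lt k M.Sym S) where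
  Q := Qs k M.St M.Sym S
  finQ := by
    have := M.finSt
    have := M.finSym
    infer_instance
  init := .ini
  next := nextS M
  out := outS M

theorem simM_nonErasing [Finite S] (M : Machine k S) : (simM M).NonErasing := by
  intro q x
  show outS M q x ≠ []
  cases q <;> cases x <;> simp only [outS] <;> try simp
  split_ifs <;> simp

/-! ## Cells of a configuration -/

variable (M : Machine k S)

/-- The `i`-th cell of a configuration. -/
def cl (c : Cfg M) (i : ℕ) : Cell k M.Sym := fun j =>
  ((c.tape j).cell i, decide ((c.tape j).head = i))

/-- The transition of a configuration. -/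
def tr (c : Cfg M) : Tr k M.St M.Sym S :=
  M.δ c.st (fun j => (c.tape j).cell (c.tape j).head)

/-- The first `m` cells, as letters. -/
def cells (c : Cfg M) (m : ℕ) : List (Lt k M.Sym S) := (List.range m).map (fun i => .cell (cl M c i))

/-- The left neighbour. -/
def lft (c : Cfg M) (i : ℕ) : Option (Cell k M.Sym) :=
  if i = 0 then none else some (cl M c (i - 1))

theorem mk_lft (c : Cfg M) (i : ℕ) (j : Fin k) :
    mk (lft M c i) j = decide ((c.tape j).head + 1 = i) := by
  unfold lft
  split_ifs with h
  · simp only [mk]
    symm
    rw [decide_eq_false_iff_not]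
    omega
  · simp only [mk, cl]
    congr 1
    apply propext
    omega

/-- The new cell. -/
theorem new_cl (c : Cfg M) (i : ℕ) :
    new (tr M c).2.1 (lft M c i) (cl M c i) (some (cl M c (i + 1))) = cl M (M.step c) i := by
  funext j
  have h1 : ((M.step c).tape j) = ⟨Function.update (c.tape j).cell (c.tape j).head
      ((tr M c).2.1 j).1, ((tr M c).2.1 j).2.move (c.tape j).head⟩ := rfl
  unfold new
  rw [mk_lft]
  simp only [cl, h1, mk]
  apply Prod.ext
  · simp only [Function.update_apply, decide_eq_true_eq]
    by_cases h : (c.tape j).head = i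
    · simp [h]
    · rw [if_neg h, if_neg (fun h' => h h'.symm)]
  · simp only
    cases ((tr M c).2.1 j).2 with
    | stay => rfl
    | left =>
      rw [Bool.eq_iff_iff, decide_eq_true_iff]
      show _ ↔ (c.tape j).head - 1 = i
      unfold lft
      by_cases hi : i = 0
      · subst hi
        simp only [if_true, Option.isNone_none, Bool.true_and, Bool.or_eq_true, decide_eq_true_eq]
        omega
      · rw [if_neg hi]
        simp only [Option.isNone_some, Bool.false_and, Bool.or_eq_true, decide_eq_true_eq,
          Bool.false_eq_true, false_or]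
        omega
    | right => rfl

/-- Without right neighbour, if the heads are not there. -/
theorem new_none {Γ : Type} (act : Fin k → Γ × Dir) (a : Option (Cell k Γ)) (b x : Cell k Γ)
    (hx : ∀ j, (x j).2 = false) : new act a b none = new act a b (some x) := by
  funext j
  simp only [new, mk, hx]

/-- The scanned symbols collected from the cells before `i`. -/
def ac (c : Cfg M) (i : ℕ) : Fin k → M.Sym := fun j =>
  if (c.tape j).head < i then (c.tape j).cell (c.tape j).head else M.blank

theorem accu_ac (c : Cfg M) (i : ℕ) : accu (ac M c i) (cl M c i) = ac M c (i + 1) := by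
  funext j
  simp only [accu, ac, cl, decide_eq_true_eq]
  by_cases h : (c.tape j).head = i
  · rw [if_pos h, if_pos (by omega), h]
  · rw [if_neg h]
    by_cases h2 : (c.tape j).head < i
    · rw [if_pos h2, if_pos (by omega)]
    · rw [if_neg h2, if_neg (by omega)]

theorem ac_zero (c : Cfg M) : ac M c 0 = fun _ => M.blank := by
  funext j
  simp [ac]

end Pool.Agent.TH754.DG
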