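import Pool.Agent.TH754.DG.Pass
import Pool.Agent.W614.Dg.Mach

/-!
The infinite word of the simulating dgsm.
-/

set_option autoImplicit false

namespace Pool.Agent.TH754.DG

open Pool.Agent.H584R2.Dg Pool.Agent.W614.Dg

variable {k : ℕ} {S : Type} (M : Machine k S)

/-- Number of cells after `t` steps. -/
noncomputable def wdt : ℕ → ℕ
  | 0 => 1
  | t + 1 => wd1 M (M.conf t) (wdt t)

/-- The letter written in step `t`. -/
def ot : ℕ → Option S
  | 0 => none
  | t + 1 => (tr M (M.conf t)).2.2

/-- Number of letters read before rotation `t`. -/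
noncomputable def Rt (t : ℕ) : ℕ := ∑ j ∈ Finset.range t, (wdt M j + 1)

/-- Decoding. -/
def dec {Γ : Type} : Lt k Γ S → Option S
  | .E o => o
  | _ => none

theorem conf_succ (t : ℕ) : M.conf (t + 1) = M.step (M.conf t) := by
  unfold Machine.conf
  rw [Function.iterate_succ_apply']

theorem ok_conf (t : ℕ) : Ok M (M.conf t) (wdt M t) := by
  induction t with
  | zero => exact ⟨le_rfl, fun j => Nat.lt_one_iff.2 rfl, fun j i _ => rfl⟩
  | succ t ih =>
    rw [conf_succ]
    exact ih.step

theorem wdt_mono : Monotone (wdt M) := monotone_nat_of_le_succ fun _ => le_wd1 M _ _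

theorem wdt_le (t : ℕ) : wdt M t ≤ t + 1 := by
  induction t with
  | zero => exact le_rfl
  | succ t ih =>
    have := wd1_le M (M.conf t) (wdt M t)
    show wd1 M (M.conf t) (wdt M t) ≤ _
    omega

theorem wdt_bound {X : ℝ} (hX : 0 ≤ X) (t : ℕ)
    (h : ∀ t' ≤ t, ∀ j, (((M.conf t').tape j).head : ℝ) < X) : (wdt M t : ℝ) ≤ X + 1 := by
  induction t with
  | zero => simp only [wdt, Nat.cast_one]; linarith
  | succ t ih =>
    have ih' := ih (fun t' ht' => h t' (by omega))
    show ((wd1 M (M.conf t) (wdt M t) : ℕ) : ℝ) ≤ _
    unfold wd1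
    split_ifs with h1
    · rw [leaves_iff] at h1
      obtain ⟨j, h2, h3⟩ := h1
      have h4 := h (t + 1) le_rfl j
      rw [conf_succ, step_tape, h2] at h4
      simp only [Dir.move, h3] at h4
      have h5 := (ok_conf M t).pos
      rw [Nat.sub_add_cancel h5] at h4
      push_cast
      linarith
    · exact ih'

theorem Rt_succ (t : ℕ) : Rt M (t + 1) = Rt M t + (wdt M t + 1) := by
  unfold Rt
  rw [Finset.sum_range_succ]

theorem Rt_zero : Rt M 0 = 0 := rfl

theorem le_Rt (t : ℕ) : t ≤ Rt M t := by
  induction t with
  | zero => exact Nat.zero_le _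
  | succ t ih => rw [Rt_succ]; omega

theorem Rt_le (t : ℕ) : Rt M t ≤ t * (t + 1) := by
  unfold Rt
  calc ∑ j ∈ Finset.range t, (wdt M j + 1) ≤ ∑ _j ∈ Finset.range t, (t + 1) := by
        apply Finset.sum_le_sum
        intro j hj
        have := wdt_le M j
        have := Finset.mem_range.1 hj
        omega
    _ = t * (t + 1) := by simp

variable [Finite S]

/-- The configurations of the queue. -/
noncomputable def q0 : (simM M).Q × List (Lt k M.Sym S) := (.top (tr M (M.conf 0)) none, cells M (M.conf 0) 1)

theorem conf_Rt (t : ℕ) : qconf (simM M) (q0 M) (Rt M t) =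
    (.top (tr M (M.conf t)) (ot M t), cells M (M.conf t) (wdt M t)) := by
  induction t with
  | zero => rfl
  | succ t ih =>
    rw [Rt_succ, qconf_add, ih]
    have h := (rotation (ok_conf M t) (ot M t)).1
    rw [List.length_append, cells_length, List.length_singleton] at h
    rw [h, conf_succ]
    rfl

/-- The word. -/
noncomputable def wS (r : ℕ) : Lt k M.Sym S :=
  match r with
  | 0 => .start
  | r + 1 => ((qconf (simM M) (q0 M) r).2.head?).getD .start

theorem trace : IsTrace (simM M) (q0 M) (fun r => wS M (r + 1)) := by
  intro r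
  have h1 := qconf_mono (simM_nonErasing M) (q0 M) (Nat.zero_le r)
  rw [qconf_zero] at h1
  have h2 : (q0 M).2.length = 1 := cells_length M _ _
  rw [h2] at h1
  simp only [wS]
  rcases h : (qconf (simM M) (q0 M) r).2 with _ | ⟨x, v⟩
  · rw [h] at h1
    simp only [List.length_nil] at h1
    omega
  · simp

theorem limit : (simM M).IsLimit .start (wS M) ∧
    ∀ n, ((simM M).map^[n + 1] [.start]).length = ((simM M).map^[n] [.start]).length +
      (qconf (simM M) (q0 M) (((simM M).map^[n] [.start]).length - 1)).2.length := by
  have h := isLimit_of_trace (τ := simM M) (simM_nonErasing M) (a := .start)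
    (u := [.cell (fun _ => (M.blank, true))]) rfl (by simp) (w := wS M) rfl (trace M)
  exact ⟨h.1, h.2.2⟩

theorem head_block (t i : ℕ) (hi : i < wdt M t + 1) :
    wS M (Rt M t + i + 1) = (cells M (M.conf t) (wdt M t) ++ [.E (ot M t)])[i]'(by
      rw [List.length_append, cells_length]; exact hi) := by
  have h1 := trace M (Rt M t + i)
  rw [qconf_add, conf_Rt] at h1
  have h2 := (rotation (ok_conf M t) (ot M t)).2 i (by
    rw [List.length_append, cells_length]; exact hi)
  exact (Option.some.inj (h2.symm.trans h1)).symm

theorem pre_block (t : ℕ) : pre (wS M) (Rt M (t + 1) + 1) =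
    pre (wS M) (Rt M t + 1) ++ (cells M (M.conf t) (wdt M t) ++ [.E (ot M t)]) := by
  apply List.ext_getElem
  · simp only [pre_length, List.length_append, cells_length, List.length_singleton, Rt_succ]
    omega
  · intro i h1 h2
    rw [List.getElem_append]
    split_ifs with h3
    · simp
    · simp only [pre_length, not_lt] at h3
      obtain ⟨j, rfl⟩ : ∃ j, i = Rt M t + j + 1 := ⟨i - Rt M t - 1, by omega⟩
      rw [pre_getElem, head_block]
      · congr 1
        simp only [pre_length]
        omega
      · simp only [pre_length, Rt_succ] at h1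
        omega

omit [Finite S] in
theorem filter_cells (c : Cfg M) (m : ℕ) : (cells M c m).filterMap (dec (S := S)) = [] := by
  rw [List.filterMap_eq_nil_iff]
  intro x hx
  simp only [cells, List.mem_map] at hx
  obtain ⟨i, -, rfl⟩ := hx
  rfl

theorem filter_block (t : ℕ) : (pre (wS M) (Rt M (t + 1) + 1)).filterMap (dec (S := S)) =
    (M.conf t).out := by
  induction t with
  | zero =>
    rw [pre_block, List.filterMap_append, List.filterMap_append, filter_cells, Rt_zero]
    rfl
  | succ t ih =>
    rw [pre_block, List.filterMap_append, ih, List.filterMap_append, filter_cells, conf_succ]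
    show _ = (M.conf t).out ++ (tr M (M.conf t)).2.2.toList
    simp only [List.nil_append]
    congr 1

omit [Finite S] in
theorem pre_prefix {T : Type} (w : ℕ → T) {m n : ℕ} (h : m ≤ n) : pre w m <+: pre w n := by
  refine ⟨(pre w n).drop m, ?_⟩
  apply List.ext_getElem
  · simp only [List.length_append, pre_length, List.length_drop]
    omega
  · intro i h1 h2
    rw [List.getElem_append]
    split_ifs with h3
    · simp
    · simp only [pre_length, not_lt] at h3
      simp only [List.getElem_drop, pre_getElem, pre_length]
      congr 1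
      omega

omit [Finite S] in
theorem isPre_of_prefix {T : Type} {l l' : List T} {w : ℕ → T} (h : l <+: l') (h' : IsPre l' w) :
    IsPre l w := by
  obtain ⟨v, rfl⟩ := h
  intro i hi
  have := h' i (by rw [List.length_append]; omega)
  rwa [List.getElem_append_left hi] at this

theorem filter_isPre {w : ℕ → S} (hM : M.Generates w) (n : ℕ) :
    IsPre ((pre (wS M) n).filterMap (dec (S := S))) w := by
  refine isPre_of_prefix ?_ (hM.1 n)
  rw [← filter_block]
  apply List.IsPrefix.filterMap
  apply pre_prefix
  have := le_Rt M (n + 1)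
  omega

theorem filter_length {n N : ℕ} (hN : Rt M (M.T n + 1) + 1 ≤ N) {w : ℕ → S}
    (hM : M.Generates w) : n ≤ ((pre (wS M) N).filterMap (dec (S := S))).length := by
  have h1 := T_spec hM n
  rw [← filter_block] at h1
  refine h1.trans (List.IsPrefix.length_le ?_)
  apply List.IsPrefix.filterMap
  exact pre_prefix _ hN

theorem queue_le {t r : ℕ} (h : r ≤ Rt M t) : (qconf (simM M) (q0 M) r).2.length ≤ wdt M t := by
  have := qconf_mono (simM_nonErasing M) (q0 M) h
  rw [conf_Rt] at this
  simpa using this

theorem growth_le (n : ℕ) : ((simM M).map^[n] [.start]).length ≤ 1 + n * wdt M n := by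
  have h1 : ∀ n, ((simM M).map^[n] [.start]).length ≤ Rt M n + 1 ∧
      ((simM M).map^[n + 1] [.start]).length ≤
        ((simM M).map^[n] [.start]).length + wdt M n := by
    intro n
    induction n with
    | zero =>
      have h2 : ((simM M).map^[0] [.start]).length ≤ Rt M 0 + 1 := by simp
      refine ⟨h2, ?_⟩
      rw [(limit M).2]
      have := queue_le M (t := 0) (r := ((simM M).map^[0] [.start]).length - 1) (by omega)
      omega
    | succ n ih =>
      have h2 : ((simM M).map^[n + 1] [.start]).length ≤ Rt M (n + 1) + 1 := by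
        have := ih.1
        have := ih.2
        rw [Rt_succ]
        omega
      refine ⟨h2, ?_⟩
      rw [(limit M).2 (n + 1)]
      have := queue_le M (t := n + 1) (r := ((simM M).map^[n + 1] [.start]).length - 1) (by omega)
      omega
  induction n with
  | zero => simp
  | succ n ih =>
    have h2 := (h1 n).2
    have h3 : wdt M n ≤ wdt M (n + 1) := wdt_mono M (Nat.le_succ n)
    calc ((simM M).map^[n + 1] [.start]).length ≤ 1 + n * wdt M n + wdt M n := by omega
      _ = 1 + (n + 1) * wdt M n := by ring
      _ ≤ _ := by
        apply Nat.add_le_add_left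
        exact Nat.mul_le_mul_left _ h3

end Pool.Agent.TH754.DG
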